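import Pool.Agent.J4H70.HT.A
import Pool.Agent.J4H70.ML.F

set_option autoImplicit false

/-! # Holomorphic targets: the trapped preimages of a moving target -/

namespace Pool.Agent.J4H70.HT

open Filter Topology Set Metric MeasureTheory Pool.Agent.H712R2
open Pool.Agent.Y736.RN Pool.Agent.J4H70.ML

variable {d p : ℕ}

/-- the trapped preimages of the moving target `h` -/
def ZZ (d p : ℕ) (V : Set ℂ) (h : ℂ → ℂ) (s j : ℕ) (c : ℂ) : Set ℂ :=
  {y | (∀ l ≤ j, (fc d c)^[p * l] y ∈ V) ∧ (fc d c)^[p * j + s] y = h c}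

theorem ZZ_eq (d p : ℕ) (V : Set ℂ) (h : ℂ → ℂ) (s j : ℕ) (c : ℂ) :
    ZZ d p V h s j c = {y : ℂ | (c, y) ∈ OO d p V (j + 1) ∧
      (fc d c)^[p * j + s] y - h c = 0} := by
  ext y
  simp [ZZ, OO, sub_eq_zero]

/-- compactness of the trapped preimages -/
theorem compact_ZZ {V : Set ℂ} (hVo : IsOpen V) (hVb : Bornology.IsBounded V)
    {B : Set ℂ} (hfr : ∀ c ∈ B, ∀ z ∈ frontier V, (fc d c)^[p] z ∉ closure V)
    {h : ℂ → ℂ} (hh : ContinuousOn h B) {s : ℕ}
    (hst : ∀ c ∈ B, ∀ z ∈ frontier V, (fc d c)^[s] z ≠ h c)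
    {j : ℕ} {c₀ : ℂ} {r : ℝ} (hr : closedBall c₀ r ⊆ B) :
    IsCompact {q : ℂ × ℂ | q ∈ OO d p V (j + 1) ∧ q.1 ∈ closedBall c₀ r ∧
      (fc d q.1)^[p * j + s] q.2 - h q.1 = 0} := by
  have heq : {q : ℂ × ℂ | q ∈ OO d p V (j + 1) ∧ q.1 ∈ closedBall c₀ r ∧
      (fc d q.1)^[p * j + s] q.2 - h q.1 = 0} = (closedBall c₀ r ×ˢ closure V) ∩
      ((⋂ l ∈ Finset.range (j + 1), (fun q : ℂ × ℂ => (fc d q.1)^[p * l] q.2) ⁻¹' closure V) ∩
        ((closedBall c₀ r ×ˢ (univ : Set ℂ)) ∩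
          (fun q : ℂ × ℂ => (fc d q.1)^[p * j + s] q.2 - h q.1) ⁻¹' {0})) := by
    ext ⟨c, y⟩
    simp only [OO, mem_ofPred_eq, mem_inter_iff, mem_prod, mem_iInter, Finset.mem_range,
      mem_preimage, mem_univ, and_true, mem_singleton_iff]
    constructor
    · rintro ⟨h1, h2, h3⟩
      refine ⟨⟨h2, subset_closure ?_⟩, fun i hi => subset_closure (h1 i hi), h2, h3⟩
      have := h1 0 (by omega)
      simpa using this
    · rintro ⟨⟨h1, h2⟩, h3, h4, h5⟩
      refine ⟨?_, h1, h5⟩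
      intro l hl
      by_contra hcon
      have hf : (fc d c)^[p * l] y ∈ frontier V := by
        rw [hVo.frontier_eq]
        exact ⟨h3 l hl, hcon⟩
      rcases Nat.lt_or_ge l j with h6 | h6
      · apply hfr c (hr h1) _ hf
        rw [← Function.iterate_add_apply, show p + p * l = p * (l + 1) by ring]
        exact h3 (l + 1) (by omega)
      · have h7 : l = j := by omega
        apply hst c (hr h1) _ hf
        rw [← Function.iterate_add_apply, h7, Nat.add_comm s (p * j)]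
        exact sub_eq_zero.1 h5
  rw [heq]
  refine IsCompact.inter_right ((isCompact_closedBall _ _).prod ?_) ?_
  · exact Metric.isCompact_of_isClosed_isBounded isClosed_closure hVb.closure
  · refine IsClosed.inter ?_ ?_
    · exact isClosed_biInter fun l _ => isClosed_closure.preimage (cont_it d (p * l))
    · apply ContinuousOn.preimage_isClosed_of_isClosed _ (isClosed_closedBall.prod isClosed_univ)
        isClosed_singleton
      apply (cont_it d (p * j + s)).continuousOn.sub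
      exact hh.comp continuous_fst.continuousOn fun q hq => hr hq.1

/-- the trapped preimages move holomorphically -/
theorem local_Z (hd : 2 ≤ d) {V : Set ℂ} (hVo : IsOpen V)
    (hVb : Bornology.IsBounded V) {B : Set ℂ} (hBo : IsOpen B)
    (hfr : ∀ c ∈ B, ∀ z ∈ frontier V, (fc d c)^[p] z ∉ closure V)
    {h : ℂ → ℂ} (hh : DifferentiableOn ℂ h B) {s : ℕ}
    (hst : ∀ c ∈ B, ∀ z ∈ frontier V, (fc d c)^[s] z ≠ h c)
    {j : ℕ} (R : ℝ) {c₀ : ℂ} (hc₀ : c₀ ∈ B)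
    (hE : ∀ k, 1 ≤ k → k ≤ p * j + s → P d k c₀ ≠ h c₀) :
    (∀ᶠ c in 𝓝 c₀, (ZZ d p V h s j c).Finite ∧
      (ZZ d p V h s j c).ncard = (ZZ d p V h s j c₀).ncard) ∧
    DifferentiableAt ℂ (fun c => BQ (ZZ d p V h s j c) R) c₀ := by
  obtain ⟨r, hr, hrB⟩ := Metric.isOpen_iff.1 hBo c₀ hc₀
  have hcd : ContDiffAt ℂ 1 h c₀ :=
    (hh.analyticAt (hBo.mem_nhds hc₀)).contDiffAt
  have h3 := lpl (fun c y => (fc d c)^[p * j + s] y - h c) (OO d p V (j + 1)) c₀ (r / 2)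
    (by
      intro y
      refine ContDiffAt.sub ?_ ?_
      · exact ((contDiff_it d (p * j + s)).of_le le_top).contDiffAt
      · exact ContDiffAt.comp (c₀, y) (f := Prod.fst) hcd contDiffAt_fst)
    (isOpen_OO d p hVo (j + 1)) (half_pos hr)
    (compact_ZZ hVo hVb hfr hh.continuousOn hst
      ((closedBall_subset_ball (half_lt_self hr)).trans hrB)) (by
      intro y _ hy2
      have h2 : deriv (fun y => (fc d c₀)^[p * j + s] y - h c₀) y =
          deriv ((fc d c₀)^[p * j + s]) y := by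
        simp
      rw [h2]
      exact deriv_it_ne hd (sub_eq_zero.1 hy2) hE)
  simp only [← ZZ_eq] at h3
  obtain ⟨h3, h4⟩ := h3
  refine ⟨h3, ?_⟩
  have h5 : DifferentiableAt ℂ (fun c => (∏ᶠ y ∈ ZZ d p V h s j c, y) /
      (R : ℂ) ^ (ZZ d p V h s j c₀).ncard) c₀ := h4.div_const _
  refine h5.congr_of_eventuallyEq ?_
  filter_upwards [h3] with c hc
  unfold BQ
  rw [hc.2]

/-- fibres of the iterates -/
theorem fiber_finite (hd : 2 ≤ d) (c v : ℂ) (N : ℕ) :
    {x : ℂ | (fc d c)^[N] x = v}.Finite ∧ {x : ℂ | (fc d c)^[N] x = v}.ncard ≤ d ^ N := by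
  classical
  have hN : 1 ≤ d ^ N := Nat.one_le_pow _ _ (by omega)
  have h1 : ip d N c - Polynomial.C v ≠ 0 := by
    intro h0
    have h2 := congrArg Polynomial.natDegree h0
    rw [Polynomial.natDegree_sub_C, ip_natDegree hd, Polynomial.natDegree_zero] at h2
    omega
  have h2 : {x : ℂ | (fc d c)^[N] x = v} ⊆
      ((ip d N c - Polynomial.C v).roots.toFinset : Set ℂ) := by
    intro x hx
    rw [Finset.mem_coe, Multiset.mem_toFinset, Polynomial.mem_roots h1, Polynomial.IsRoot.def,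
      Polynomial.eval_sub, ip_eval, Polynomial.eval_C, sub_eq_zero]
    exact hx
  refine ⟨(Finset.finite_toSet _).subset h2, ?_⟩
  refine (Set.ncard_le_ncard h2 (Finset.finite_toSet _)).trans ?_
  rw [Set.ncard_coe_finset]
  refine (Multiset.toFinset_card_le _).trans ?_
  refine (Polynomial.card_roots' _).trans ?_
  rw [Polynomial.natDegree_sub_C, ip_natDegree hd]

/-- the number of the trapped preimages of every target -/
theorem all_target (hd : 2 ≤ d) (hp : 1 ≤ p) {V : Set ℂ}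
    (hVo : IsOpen V) (hVb : Bornology.IsBounded V) {c₁ c' : ℂ} {δ : ℝ}
    (hfr : ∀ c ∈ ball c₁ δ, ∀ z ∈ frontier V, (fc d c)^[p] z ∉ closure V)
    (hdeg : Deg d p V c₁) (hc' : c' ∈ ball c₁ δ) {v : ℂ} (hv : v ∈ V) (j : ℕ) :
    (YY d p V v j c').Finite ∧ (YY d p V v j c').ncard ≤ d ^ j := by
  classical
  have hfin : (YY d p V v j c').Finite :=
    (fiber_finite hd c' v (p * j)).1.subset fun y hy => hy.2
  refine ⟨hfin, ?_⟩
  rcases Nat.eq_zero_or_pos j with hj | hj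
  · subst hj
    have h : YY d p V v 0 c' = {v} := by
      ext y
      simp [YY]
    rw [h]
    simp
  -- disjoint neighbourhoods
  obtain ⟨N, hN⟩ : ∃ N : ℂ → Set ℂ, (∀ y ∈ YY d p V v j c', N y ∈ 𝓝 y) ∧
      (∀ y ∈ YY d p V v j c', N y ⊆ {x | ∀ i < j, (fc d c')^[p * i] x ∈ V}) ∧
      (YY d p V v j c').PairwiseDisjoint N := by
    obtain ⟨U, hU1, hU2⟩ := hfin.t2_separation
    refine ⟨fun y => U y ∩ {x | ∀ i < j, (fc d c')^[p * i] x ∈ V}, ?_, ?_, ?_⟩
    · intro y hy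
      refine inter_mem ((hU1 y).2.mem_nhds (hU1 y).1) ?_
      have h1 : IsOpen {x | ∀ i < j, (fc d c')^[p * i] x ∈ V} := by
        have h2 : {x | ∀ i < j, (fc d c')^[p * i] x ∈ V} =
            ⋂ i ∈ Finset.range j, ((fc d c')^[p * i]) ⁻¹' V := by
          ext z
          simp
        rw [h2]
        exact isOpen_biInter_finset fun i _ => hVo.preimage (cont_it_y d (p * i) c')
      exact h1.mem_nhds hy.1
    · intro y _
      exact inter_subset_right
    · intro y hy y' hy' hne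
      exact (hU2 hy hy' hne).mono inter_subset_left inter_subset_left
  obtain ⟨hN1, hN2, hN3⟩ := hN
  -- the images contain a neighbourhood of the target
  have himg : ∀ y ∈ YY d p V v j c', (fc d c')^[p * j] '' N y ∈ 𝓝 v := by
    intro y hy
    have han : AnalyticAt ℂ ((fc d c')^[p * j]) y := (diff_it_y d (p * j) c').analyticAt y
    rcases han.eventually_constant_or_nhds_le_map_nhds with h | h
    · exfalso
      have h1 := ev_ne hd c' y ((fc d c')^[p * j] y) (p * j)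
      obtain ⟨x, hx1, hx2⟩ := (h1.and (h.filter_mono nhdsWithin_le_nhds)).exists
      exact hx1 hx2
    · rw [hy.2] at h
      exact h (image_mem_map (hN1 y hy))
  have hW : (⋂ y ∈ YY d p V v j c', (fc d c')^[p * j] '' N y) ∩ V ∈ 𝓝 v :=
    inter_mem ((biInter_mem hfin).2 himg) (hVo.mem_nhds hv)
  -- a generic target in it
  obtain ⟨w, ⟨hw1, hw2⟩, hwB⟩ : ∃ w ∈ (⋂ y ∈ YY d p V v j c', (fc d c')^[p * j] '' N y) ∩ V,
      w ∉ {w : ℂ | ∃ m, ∃ c ∈ segment ℝ c₁ c', P d m c = w} := by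
    by_contra hno
    push Not at hno
    have h1 := measure_mono_null hno (null_bad d c₁ c')
    obtain ⟨t, ht, hto, htv⟩ := _root_.mem_nhds_iff.1 hW
    exact (hto.measure_pos volume ⟨v, htv⟩).ne' (measure_mono_null ht h1)
  obtain ⟨hf2, hcard⟩ := generic_target hd hp hVo hVb hfr hdeg hc' hw2 (by
    intro c hc m hm
    exact hwB ⟨m, c, hc, hm⟩) j hj
  -- the injection
  have hch : ∀ y ∈ YY d p V v j c', ∃ x ∈ N y, (fc d c')^[p * j] x = w := by
    intro y hy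
    have := mem_iInter₂.1 hw1 y hy
    obtain ⟨x, hx, hxw⟩ := this
    exact ⟨x, hx, hxw⟩
  choose! φ hφ1 hφ2 using hch
  refine (Set.ncard_le_ncard_of_injOn φ (fun y hy => ?_) ?_ hf2).trans hcard
  · exact ⟨hN2 y hy (hφ1 y hy), hφ2 y hy⟩
  · intro y hy y' hy' h
    by_contra hne
    have h1 := hN3 hy hy' hne
    exact Set.disjoint_left.1 h1 (hφ1 y hy) (by rw [h]; exact hφ1 y' hy')

/-- the number of the trapped preimages of a moving target -/
theorem card_ZZ (hd : 2 ≤ d) (hp : 1 ≤ p) {V : Set ℂ}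
    (hVo : IsOpen V) (hVb : Bornology.IsBounded V) {c₁ c' : ℂ} {δ : ℝ}
    (hfr : ∀ c ∈ ball c₁ δ, ∀ z ∈ frontier V, (fc d c)^[p] z ∉ closure V)
    (hdeg : Deg d p V c₁) (hc' : c' ∈ ball c₁ δ) (h : ℂ → ℂ) (s j : ℕ) :
    (ZZ d p V h s j c').Finite ∧ (ZZ d p V h s j c').ncard ≤ d ^ s * d ^ j := by
  classical
  obtain ⟨hf1, hc1⟩ := fiber_finite hd c' (h c') s
  obtain ⟨T, hT⟩ : ∃ T : Finset ℂ, T = hf1.toFinset.filter (· ∈ V) := ⟨_, rfl⟩
  have hTV : ∀ v ∈ T, v ∈ V := by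
    intro v hv
    rw [hT] at hv
    exact (Finset.mem_filter.1 hv).2
  have hTc : T.card ≤ d ^ s := by
    rw [hT]
    refine (Finset.card_filter_le _ _).trans ?_
    rwa [← Set.ncard_eq_toFinset_card _ hf1]
  have hsub : ZZ d p V h s j c' ⊆ ⋃ v ∈ T, YY d p V v j c' := by
    rintro y ⟨hy1, hy2⟩
    simp only [mem_iUnion]
    refine ⟨(fc d c')^[p * j] y, ?_, fun l hl => hy1 l hl.le, rfl⟩
    rw [hT, Finset.mem_filter, Set.Finite.mem_toFinset]
    refine ⟨?_, hy1 j le_rfl⟩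
    show (fc d c')^[s] ((fc d c')^[p * j] y) = h c'
    rw [← Function.iterate_add_apply, Nat.add_comm s]
    exact hy2
  have hfin : (⋃ v ∈ T, YY d p V v j c').Finite :=
    Set.Finite.biUnion T.finite_toSet fun v hv =>
      (all_target hd hp hVo hVb hfr hdeg hc' (hTV v hv) j).1
  refine ⟨hfin.subset hsub, ?_⟩
  refine (Set.ncard_le_ncard hsub hfin).trans ?_
  refine (Finset.set_ncard_biUnion_le T fun v => YY d p V v j c').trans ?_
  calc ∑ v ∈ T, (YY d p V v j c').ncard ≤ ∑ _v ∈ T, d ^ j :=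
        Finset.sum_le_sum fun v hv => (all_target hd hp hVo hVb hfr hdeg hc' (hTV v hv) j).2
    _ = T.card * d ^ j := by rw [Finset.sum_const, smul_eq_mul]
    _ ≤ d ^ s * d ^ j := by gcongr

/-- zeros persist, for moving targets -/
theorem persist3 (hd : 2 ≤ d) {V : Set ℂ} (hV : IsOpen V) {ĉ : ℂ} {h : ℂ → ℂ}
    (hh : ContinuousAt h ĉ) {s j : ℕ}
    (h1 : ∀ l ≤ j, P d (p * l) ĉ ∈ V) (h2 : P d (p * j + s) ĉ = h ĉ) {ε : ℝ} (hε : 0 < ε) :
    ∀ᶠ c in 𝓝 ĉ, ∃ y, ‖y‖ < ε ∧ y ∈ ZZ d p V h s j c := by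
  obtain ⟨m, hm⟩ : ∃ m, m = p * j + s := ⟨_, rfl⟩
  obtain ⟨w, hw⟩ : ∃ w, w = h ĉ := ⟨_, rfl⟩
  rw [← hm, ← hw] at h2
  have hO : OO d p V (j + 1) ∈ 𝓝 (ĉ, (0 : ℂ)) :=
    (isOpen_OO d p hV (j + 1)).mem_nhds fun l hl => h1 l (by omega)
  rw [nhds_prod_eq] at hO
  obtain ⟨N, hN, T, hT, hNT⟩ := mem_prod_iff.1 hO
  obtain ⟨t, ht, hTt⟩ := Metric.mem_nhds_iff.1 hT
  have h3 := ev_ne hd ĉ 0 w m
  rw [eventually_nhdsWithin_iff, Metric.eventually_nhds_iff] at h3
  obtain ⟨s', hs, h3⟩ := h3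
  obtain ⟨r, hr⟩ : ∃ r, r = min (min (t / 2) (s' / 2)) (ε / 2) := ⟨_, rfl⟩
  have hr0 : 0 < r := by rw [hr]; positivity
  have hrt : r < t := by
    have := min_le_left (min (t / 2) (s' / 2)) (ε / 2)
    have := min_le_left (t / 2) (s' / 2)
    rw [hr]; linarith
  have hrs : r < s' := by
    have := min_le_left (min (t / 2) (s' / 2)) (ε / 2)
    have := min_le_right (t / 2) (s' / 2)
    rw [hr]; linarith
  have hrε : r < ε := by
    have := min_le_right (min (t / 2) (s' / 2)) (ε / 2)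
    rw [hr]; linarith
  have hsph : ∀ y ∈ sphere (0 : ℂ) r, (fc d ĉ)^[m] y ≠ w := by
    intro y hy
    rw [mem_sphere_zero_iff_norm] at hy
    apply h3 (by rw [dist_zero_right, hy]; exact hrs)
    intro h0
    rw [mem_singleton_iff] at h0
    rw [h0, norm_zero] at hy
    linarith
  obtain ⟨y₁, hy₁, hmin⟩ := (isCompact_sphere (0 : ℂ) r).exists_isMinOn
    (NormedSpace.sphere_nonempty.2 hr0.le)
    (f := fun y => ‖(fc d ĉ)^[m] y - w‖)
    (((cont_it_y d m ĉ).sub continuous_const).norm.continuousOn)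
  obtain ⟨m₀, hm₀⟩ : ∃ m₀, m₀ = ‖(fc d ĉ)^[m] y₁ - w‖ := ⟨_, rfl⟩
  have hm0 : 0 < m₀ := by
    rw [hm₀]
    exact norm_pos_iff.2 (sub_ne_zero.2 (hsph _ hy₁))
  have hmin' : ∀ y ∈ sphere (0 : ℂ) r, m₀ ≤ ‖(fc d ĉ)^[m] y - w‖ := by
    intro y hy
    rw [hm₀]
    exact hmin hy
  -- uniform closeness
  have hun : ∀ᶠ c in 𝓝 ĉ, ∀ y ∈ closedBall (0 : ℂ) r,
      ‖(fc d c)^[m] y - (fc d ĉ)^[m] y‖ < m₀ / 8 := by
    have hopen : IsOpen {q : ℂ × ℂ | ‖(fc d q.1)^[m] q.2 - (fc d ĉ)^[m] q.2‖ < m₀ / 8} := by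
      refine isOpen_lt ?_ continuous_const
      exact ((cont_it d m).sub ((cont_it_y d m ĉ).comp continuous_snd)).norm
    obtain ⟨u, v, hu, hv, hsu, htv, huv⟩ := generalized_tube_lemma (isCompact_singleton (x := ĉ))
      (isCompact_closedBall (0 : ℂ) r) hopen (by
        rintro ⟨a, b⟩ ⟨ha, hb⟩
        rw [mem_singleton_iff] at ha
        simp only [mem_ofPred_eq]
        have ha' : a = ĉ := ha
        rw [ha', sub_self, norm_zero]
        positivity)
    filter_upwards [hu.mem_nhds (hsu rfl)] with c hc y hy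
    exact huv (show (c, y) ∈ u ×ˢ v from ⟨hc, htv hy⟩)
  have hhc : ∀ᶠ c in 𝓝 ĉ, ‖h c - w‖ < m₀ / 8 := by
    have := Metric.tendsto_nhds.1 hh (m₀ / 8) (by positivity)
    filter_upwards [this] with c hc
    rwa [dist_eq_norm, ← hw] at hc
  filter_upwards [hun, hN, hhc] with c hc hcN hhc
  have hw0 : ‖h c - (fc d c)^[m] 0‖ < m₀ / 4 := by
    have h5 := hc 0 (mem_closedBall_self hr0.le)
    rw [it_eq_P d m ĉ, h2, norm_sub_rev] at h5
    have h6 : h c - (fc d c)^[m] 0 = (h c - w) + (w - (fc d c)^[m] 0) := by ring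
    rw [h6]
    have := norm_add_le (h c - w) (w - (fc d c)^[m] 0)
    linarith
  have hw1 : ‖w - (fc d c)^[m] 0‖ < m₀ / 4 := by
    have h5 := hc 0 (mem_closedBall_self hr0.le)
    rw [it_eq_P d m ĉ, h2, norm_sub_rev] at h5
    linarith
  have h4 : ball ((fc d c)^[m] 0) (m₀ / 2 / 2) ⊆ (fc d c)^[m] '' closedBall 0 r := by
    apply DiffContOnCl.ball_subset_image_closedBall (diff_it_y d m c).diffContOnCl hr0
    · intro y hy
      have h5 := hmin' y hy
      have h6 := hc y (sphere_subset_closedBall hy)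
      have h7 : (fc d ĉ)^[m] y - w = ((fc d c)^[m] y - (fc d c)^[m] 0) -
          ((fc d c)^[m] y - (fc d ĉ)^[m] y) - (w - (fc d c)^[m] 0) := by ring
      have h8 : ‖(fc d ĉ)^[m] y - w‖ ≤ ‖(fc d c)^[m] y - (fc d c)^[m] 0‖ +
          ‖(fc d c)^[m] y - (fc d ĉ)^[m] y‖ + ‖w - (fc d c)^[m] 0‖ := by
        rw [h7]
        exact (norm_sub_le _ _).trans (add_le_add (norm_sub_le _ _) le_rfl)
      linarith
    · have h5 := ev_ne hd c 0 ((fc d c)^[m] 0) m
      exact (h5.frequently).filter_mono nhdsWithin_le_nhds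
  obtain ⟨y, hy1, hy2⟩ := h4 (show h c ∈ ball _ _ by
    rw [mem_ball, dist_eq_norm]
    linarith)
  rw [mem_closedBall_zero_iff] at hy1
  refine ⟨y, by linarith, ?_, ?_⟩
  · intro l hl
    exact hNT (show (c, y) ∈ N ×ˢ T from ⟨hcN, hTt (by rw [mem_ball_zero_iff]; linarith)⟩) l
      (by omega)
  · rw [← hm]
    exact hy2

end Pool.Agent.J4H70.HT
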