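import Pool.Agent.J4H70.HT.B
import Pool.Agent.J4H70.ML.G

set_option autoImplicit false

/-! # Holomorphic targets: the counting lemma -/

namespace Pool.Agent.J4H70.HT

open Filter Topology Set Metric MeasureTheory Pool.Agent.H712R2
open Pool.Agent.Y736.RN Pool.Agent.J4H70.ML
open N62a1eb23

variable {d p : ℕ}

/-- coincidences of two holomorphic functions in a compact part of a disc are finite in number -/
theorem eq_finite {g h : ℂ → ℂ} {c₁ : ℂ} {δ δ' : ℝ} (hδ : δ' < δ)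
    (hg : DifferentiableOn ℂ g (ball c₁ δ)) (hh : DifferentiableOn ℂ h (ball c₁ δ))
    (hne : ¬ EqOn g h (ball c₁ δ)) : {c | c ∈ closedBall c₁ δ' ∧ g c = h c}.Finite := by
  by_contra hcon
  have hinf : {c | c ∈ closedBall c₁ δ' ∧ g c = h c}.Infinite := hcon
  obtain ⟨z, hz, hacc⟩ := hinf.exists_accPt_of_subset_isCompact (isCompact_closedBall c₁ δ')
    (fun c hc => hc.1)
  apply hne
  have hz' : z ∈ ball c₁ δ := closedBall_subset_ball hδ hz
  apply (hg.analyticOnNhd isOpen_ball).eqOn_of_preconnected_of_frequently_eq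
    (hh.analyticOnNhd isOpen_ball) (convex_ball c₁ δ).isPreconnected hz'
  have h1 := accPt_iff_frequently.1 hacc
  rw [frequently_nhdsWithin_iff]
  refine h1.mono ?_
  rintro c ⟨h2, h3⟩
  exact ⟨h3.2, h2⟩

/-- an escaping parameter close to a boundary parameter, outside of a countable set -/
theorem exists_esc2 (hd : 2 ≤ d) {c₁ : ℂ} (hc₁ : c₁ ∈ frontier (multibrotSet d)) {ε : ℝ}
    (hε : 0 < ε) {N : Set ℂ} (hN : N.Countable) : ∃ c' : ℂ, ‖c' - c₁‖ < ε ∧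
      Tendsto (fun k => P d k c') atTop (Bornology.cobounded ℂ) ∧ c' ∉ N := by
  have hMc : IsClosed (multibrotSet d) := (isCompact_multibrot hd).isClosed
  have h1 : c₁ ∈ closure (multibrotSet d)ᶜ := by
    rw [frontier_eq_closure_inter_closure] at hc₁
    exact hc₁.2
  have h2 : ((multibrotSet d)ᶜ ∩ ball c₁ ε).Nonempty := by
    obtain ⟨c'', hc''M, hc''⟩ := Metric.mem_closure_iff.1 h1 ε hε
    exact ⟨c'', hc''M, by rwa [mem_ball, dist_comm]⟩
  have h3 : IsOpen ((multibrotSet d)ᶜ ∩ ball c₁ ε) := hMc.isOpen_compl.inter isOpen_ball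
  have h4 : 0 < volume ((multibrotSet d)ᶜ ∩ ball c₁ ε) := h3.measure_pos volume h2
  obtain ⟨c', hc', hc'E⟩ : ∃ c' ∈ (multibrotSet d)ᶜ ∩ ball c₁ ε, c' ∉ N := by
    by_contra hcon
    push Not at hcon
    exact h4.ne' (measure_mono_null hcon (hN.measure_zero volume))
  refine ⟨c', ?_, ?_, hc'E⟩
  · have := hc'.2
    rwa [mem_ball, dist_eq_norm] at this
  · by_contra h
    exact hc'.1 h

/-- the zeros to be counted -/
def Zj (d p : ℕ) (V : Set ℂ) (h : ℂ → ℂ) (s : ℕ) (c₁ : ℂ) (δ : ℝ) (j : ℕ) : Set ℂ :=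
  {c | c ∈ ball c₁ δ ∧ (∀ l ≤ j, P d (p * l) c ∈ V) ∧ P d (p * j + s) c = h c}

/-- **The counting lemma for moving targets.** -/
theorem count3 (hd : 2 ≤ d) (hp : 1 ≤ p) {V : Set ℂ}
    (hVo : IsOpen V) (hVb : Bornology.IsBounded V) {c₁ : ℂ} {δ : ℝ} (hδ : 0 < δ)
    (hc₁ : c₁ ∈ frontier (multibrotSet d))
    (hfr : ∀ c ∈ ball c₁ δ, ∀ z ∈ frontier V, (fc d c)^[p] z ∉ closure V)
    (hdeg : Deg d p V c₁) {h : ℂ → ℂ} (hh : DifferentiableOn ℂ h (ball c₁ δ)) {s : ℕ}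
    (hst : ∀ c ∈ ball c₁ δ, ∀ z ∈ frontier V, (fc d c)^[s] z ≠ h c)
    (hne : ∀ k, 1 ≤ k → ¬ EqOn (P d k) h (ball c₁ δ)) :
    ∃ (C : ℝ) (J : ℕ), ∀ j, J ≤ j → (Zj d p V h s c₁ (δ / 16) j).Finite ∧
      ((Zj d p V h s c₁ (δ / 16) j).ncard : ℝ) ≤ C * (d : ℝ) ^ j := by
  have hPd : ∀ k, Differentiable ℂ (P d k) := fun k => diff_it_c d k 0
  have hEk : ∀ k, 1 ≤ k → {c | c ∈ closedBall c₁ (3 * δ / 4) ∧ P d k c = h c}.Finite :=
    fun k hk => eq_finite (by linarith) (hPd k).differentiableOn hh (hne k hk)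
  obtain ⟨EE, hEE⟩ : ∃ EE : ℕ → Set ℂ, EE = fun n =>
      ⋃ k ∈ Finset.Icc 1 n, {c | c ∈ closedBall c₁ (3 * δ / 4) ∧ P d k c = h c} := ⟨_, rfl⟩
  have hEfin : ∀ n, (EE n).Finite := by
    intro n
    rw [hEE]
    apply Set.Finite.biUnion (Finset.finite_toSet _)
    intro k hk
    exact hEk k (Finset.mem_Icc.1 hk).1
  have hEmem : ∀ n c, c ∈ ball c₁ (3 * δ / 4) → c ∉ EE n →
      ∀ k, 1 ≤ k → k ≤ n → P d k c ≠ h c := by
    intro n c hc hcE k hk1 hk2 hk3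
    apply hcE
    rw [hEE]
    simp only [mem_iUnion]
    exact ⟨k, Finset.mem_Icc.2 ⟨hk1, hk2⟩, ball_subset_closedBall hc, hk3⟩
  obtain ⟨c', hc', hesc, hc'N⟩ := exists_esc2 hd hc₁ (show 0 < δ / 16 by positivity)
    (countable_iUnion fun n => (hEfin n).countable)
  rw [mem_iUnion, not_exists] at hc'N
  have hc'B : c' ∈ ball c₁ δ := by
    rw [mem_ball, dist_eq_norm]
    linarith
  -- the critical point leaves at `c'`
  obtain ⟨i₀, hi₀⟩ : ∃ i, P d (p * i) c' ∉ closure V := by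
    have h1 : Tendsto (fun l : ℕ => p * l) atTop atTop :=
      tendsto_atTop_mono (fun l => Nat.le_mul_of_pos_left l hp) tendsto_id
    exact ((hesc.comp h1).eventually (Bornology.isBounded_def.1 hVb.closure)).exists
  obtain ⟨η₀, hη₀, hη₀'⟩ : ∃ η₀ > 0, ∀ y : ℂ, ‖y‖ < η₀ → (fc d c')^[p * i₀] y ∉ closure V := by
    have h1 : IsOpen {y | (fc d c')^[p * i₀] y ∉ closure V} :=
      isClosed_closure.isOpen_compl.preimage (cont_it_y d _ _)
    obtain ⟨η, hη, h2⟩ := Metric.isOpen_iff.1 h1 0 hi₀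
    exact ⟨η, hη, fun y hy => h2 (mem_ball_zero_iff.2 hy)⟩
  obtain ⟨R₀, hR₀⟩ := hVb.exists_norm_le
  obtain ⟨R, hRdef⟩ : ∃ R, R = max R₀ (max 1 (2 * η₀)) := ⟨_, rfl⟩
  have hR1 : 1 ≤ R := by rw [hRdef]; exact (le_max_left _ _).trans (le_max_right _ _)
  have hR : 0 < R := by linarith
  have hRη : 2 * η₀ ≤ R := by rw [hRdef]; exact (le_max_right _ _).trans (le_max_right _ _)
  have hVR : ∀ y ∈ V, ‖y‖ ≤ R := fun y hy => (hR₀ y hy).trans (by rw [hRdef]; exact le_max_left _ _)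
  have hq0 : 0 < η₀ / R := by positivity
  have hq1 : η₀ / R < 1 := by rw [div_lt_one hR]; linarith
  have hlog : 0 < Real.log (R / η₀) := Real.log_pos (by rw [one_lt_div hη₀]; linarith)
  have hlog2 : 0 < Real.log 2 := Real.log_pos (by norm_num)
  refine ⟨(d : ℝ) ^ s * Real.log (R / η₀) / Real.log 2, i₀ + 1, fun j hj => ?_⟩
  obtain ⟨n, hn⟩ : ∃ n, n = p * j + s := ⟨_, rfl⟩
  have hj1 : 1 ≤ j := by omega
  have hpj : 1 ≤ n := by
    have : 1 ≤ p * j := Nat.mul_pos hp hj1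
    omega
  have hsub16 : ball c₁ (δ / 16) ⊆ closedBall c₁ (3 * δ / 4) :=
    (ball_subset_ball (by linarith)).trans ball_subset_closedBall
  have hfinZ : (Zj d p V h s c₁ (δ / 16) j).Finite := by
    refine (hEk n hpj).subset ?_
    rintro c ⟨h1, _, h3⟩
    exact ⟨hsub16 h1, by rw [hn]; exact h3⟩
  refine ⟨hfinZ, ?_⟩
  have hSV : ∀ c, ∀ y ∈ ZZ d p V h s j c, ‖y‖ ≤ R := by
    intro c y hy
    apply hVR
    have := hy.1 0 (by omega)
    simpa using this
  have hsub : ball c' (δ / 2) ⊆ ball c₁ (3 * δ / 4) := by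
    apply ball_subset_ball'
    rw [dist_eq_norm]
    linarith
  have hsub2 : ball c₁ (3 * δ / 4) ⊆ ball c₁ δ := ball_subset_ball (by linarith)
  obtain ⟨hc'fin, hcard⟩ := card_ZZ hd hp hVo hVb hfr hdeg hc'B h s j
  have hlow : (η₀ / R) ^ (d ^ s * d ^ j) ≤ ‖BQ (ZZ d p V h s j c') R‖ := by
    apply BQ_ge hη₀ (by linarith) hc'fin hcard
    intro y hy
    by_contra hlt
    push Not at hlt
    exact hη₀' y hlt (subset_closure (hy.1 i₀ (by omega)))
  have hloc : ∀ c ∈ ball c₁ (3 * δ / 4), c ∉ EE n →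
      (∀ᶠ c₂ in 𝓝 c, (ZZ d p V h s j c₂).Finite ∧
        (ZZ d p V h s j c₂).ncard = (ZZ d p V h s j c).ncard) ∧
      DifferentiableAt ℂ (fun c => BQ (ZZ d p V h s j c) R) c := by
    intro c hc hcE
    exact local_Z hd hVo hVb isOpen_ball hfr hh hst R (hsub2 hc)
      (fun k hk1 hk2 => hEmem n c hc hcE k hk1 (by omega))
  have key := jz (fun c => BQ (ZZ d p V h s j c) R) c' (δ / 2) 1
    ((η₀ / R) ^ (d ^ s * d ^ j)) (EE n) hfinZ.toFinset (by positivity) (hEfin n)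
    (by
      rintro c ⟨hc1, hc2⟩
      exact (hloc c (hsub hc1) hc2).2.differentiableWithinAt)
    (fun c _ => BQ_le hR (hSV c)) (hc'N n) hlow (by
      intro c hc
      rw [Set.Finite.coe_toFinset] at hc
      have h1 := hc.1
      rw [mem_ball, dist_eq_norm] at h1 ⊢
      have h2 : ‖c - c'‖ ≤ ‖c - c₁‖ + ‖c' - c₁‖ := by
        rw [← dist_eq_norm, ← dist_eq_norm, ← dist_eq_norm]
        exact dist_triangle_right _ _ _
      linarith)
    (by
      intro ĉ hĉ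
      rw [Set.Finite.mem_toFinset] at hĉ
      obtain ⟨h1, h2, h3⟩ := hĉ
      rw [Metric.tendsto_nhds]
      intro ε hε
      have hcont : ContinuousAt h ĉ :=
        (hh.differentiableAt (isOpen_ball.mem_nhds
          (ball_subset_ball (by linarith) h1))).continuousAt
      have h4 := persist3 hd hVo hcont h2 h3 (ε := ε * R) (by positivity)
      have h5 : ∀ᶠ c in 𝓝[≠] ĉ, c ∉ EE n := by
        have h6 : IsClosed (EE n \ {ĉ}) := ((hEfin n).subset sdiff_subset).isClosed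
        have h7 : (EE n \ {ĉ})ᶜ ∈ 𝓝 ĉ := h6.isOpen_compl.mem_nhds (by simp)
        filter_upwards [mem_nhdsWithin_of_mem_nhds h7, self_mem_nhdsWithin] with c hc1 hc2 hc3
        exact hc1 ⟨hc3, hc2⟩
      have h6 : ∀ᶠ c in 𝓝[≠] ĉ, c ∈ ball c₁ (3 * δ / 4) := by
        apply mem_nhdsWithin_of_mem_nhds
        exact isOpen_ball.mem_nhds (ball_subset_ball (by linarith) h1)
      filter_upwards [nhdsWithin_le_nhds h4, h5, h6] with c hc1 hc2 hc3
      obtain ⟨y, hy1, hy2⟩ := hc1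
      rw [dist_zero_right]
      have hf := (hloc c hc3 hc2).1.self_of_nhds.1
      exact BQ_small hR (hSV c) hf hy2 hy1)
  rw [← Set.ncard_eq_toFinset_card _ hfinZ] at key
  have h1 : (2 : ℝ) ^ ((Zj d p V h s c₁ (δ / 16) j).ncard) ≤ (R / η₀) ^ (d ^ s * d ^ j) := by
    have h2 : (R / η₀) ^ (d ^ s * d ^ j) = 1 / (η₀ / R) ^ (d ^ s * d ^ j) := by
      rw [← inv_div, inv_pow, one_div]
    rw [h2, le_div_iff₀ (by positivity)]
    linarith
  have h2 := Real.log_le_log (by positivity) h1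
  rw [Real.log_pow, Real.log_pow] at h2
  rw [div_mul_eq_mul_div, le_div_iff₀ hlog2]
  push_cast at h2
  linarith

end Pool.Agent.J4H70.HT
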