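import Pool.Agent.J4H70.HT.C

set_option autoImplicit false

/-! # Holomorphic targets: the dimension of the well approximated parameters -/

namespace Pool.Agent.J4H70.HT

open Filter Topology Set Metric MeasureTheory Pool.Agent.H712R2
open Pool.Agent.Y736.RN Pool.Agent.J4H70.ML
open N62a1eb23

variable {d p : ℕ}

/-- stability of the second frontier condition -/
theorem stab2 {V : Set ℂ} (hVb : Bornology.IsBounded V) {c₁ : ℂ} {h : ℂ → ℂ}
    (hh : ContinuousAt h c₁) {s : ℕ} (hst : ∀ z ∈ frontier V, (fc d c₁)^[s] z ≠ h c₁) :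
    ∀ᶠ c in 𝓝 c₁, ∀ z ∈ frontier V, (fc d c)^[s] z ≠ h c := by
  have hopen : IsOpen {q : (ℂ × ℂ) × ℂ | (fc d q.1.1)^[s] q.2 ≠ q.1.2} := by
    apply isOpen_ne_fun
    · exact (cont_it d s).comp ((continuous_fst.comp continuous_fst).prodMk continuous_snd)
    · exact continuous_snd.comp continuous_fst
  have hc : IsCompact (frontier V) :=
    Metric.isCompact_of_isClosed_isBounded isClosed_frontier (hVb.closure.subset frontier_subset_closure)
  obtain ⟨u, v, hu, hv, hsu, htv, huv⟩ := generalized_tube_lemma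
    (isCompact_singleton (x := (c₁, h c₁))) hc hopen (by
      rintro ⟨a, b⟩ ⟨ha, hb⟩
      have ha' : a = (c₁, h c₁) := ha
      show (fc d a.1)^[s] b ≠ a.2
      rw [ha']
      exact hst b hb)
  have h1 : Tendsto (fun c => (c, h c)) (𝓝 c₁) (𝓝 (c₁, h c₁)) := tendsto_id.prodMk_nhds hh
  filter_upwards [h1.eventually (hu.mem_nhds (hsu rfl))] with c hc z hz
  exact huv (show ((c, h c), z) ∈ u ×ˢ v from ⟨hc, htv hz⟩)

/-- the target is not a point of the critical orbit after the critical point -/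
def NP (d : ℕ) (h : ℂ → ℂ) (c : ℂ) : Prop := ∀ k, 1 ≤ k → ¬ (P d k =ᶠ[𝓝 c] h)

/-- infinitely often exponentially close to a parameter that hits the target, along a residue
class -/
def Near3 (d p : ℕ) (D : Set ℂ) (h : ℂ → ℂ) (s : ℕ) (X : ℝ) (c : ℂ) : Prop :=
  ∃ᶠ j : ℕ in atTop, ∃ a ∈ D, P d (p * j + s) a = h a ∧ ‖a - c‖ ≤ Real.exp (-(X * (p * j + s)))

/-- the bound for one domain -/
theorem dim_V3 (hd : 2 ≤ d) (hp : 1 ≤ p) {V : Set ℂ} (hVo : IsOpen V)
    (hVb : Bornology.IsBounded V) {D : Set ℂ} (hD : IsOpen D) {h : ℂ → ℂ}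
    (hh : DifferentiableOn ℂ h D) {s : ℕ} {X : ℝ} (hX : 0 < X) :
    dimH {c | c ∈ frontier (multibrotSet d) ∧ c ∈ D ∧ NP d h c ∧ Good d p V c ∧
      (∀ z ∈ frontier V, (fc d c)^[s] z ≠ h c) ∧ Near3 d p D h s X c} ≤
      ENNReal.ofReal (Real.log d / (p * X)) := by
  have hp0 : (0:ℝ) < p := by exact_mod_cast hp
  have hpX : 0 < (p:ℝ) * X := by positivity
  have hdR : (1 : ℝ) < d := by exact_mod_cast (by omega : 1 < d)
  obtain ⟨A, hA⟩ : ∃ A : Set ℂ, A = {c | c ∈ frontier (multibrotSet d) ∧ c ∈ D ∧ NP d h c ∧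
    Good d p V c ∧ (∀ z ∈ frontier V, (fc d c)^[s] z ≠ h c) ∧ Near3 d p D h s X c} := ⟨_, rfl⟩
  rw [← hA]
  apply le_of_forall_lt
  intro r hr
  obtain ⟨c₁, hc₁, hdim⟩ := exists_mem_nhdsWithin_lt_dimH_of_lt_dimH hr
  have hc₁' := hc₁
  rw [hA] at hc₁'
  obtain ⟨hfr₁, hD₁, hNP, hg, hst₁, _⟩ := hc₁'
  obtain ⟨δ₁, hδ₁, hfr⟩ := stab hVb hg.1
  have hcont : ContinuousAt h c₁ := (hh.differentiableAt (hD.mem_nhds hD₁)).continuousAt
  have hev := (stab2 hVb hcont hst₁).and (hD.mem_nhds hD₁ : ∀ᶠ c in 𝓝 c₁, c ∈ D)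
  obtain ⟨δ₂, hδ₂, hst⟩ := Metric.eventually_nhds_iff_ball.1 hev
  obtain ⟨δ, hδdef⟩ : ∃ δ, δ = min δ₁ δ₂ := ⟨_, rfl⟩
  have hδ : 0 < δ := by rw [hδdef]; positivity
  have hb1 : ball c₁ δ ⊆ ball c₁ δ₁ := ball_subset_ball (by rw [hδdef]; exact min_le_left _ _)
  have hb2 : ball c₁ δ ⊆ ball c₁ δ₂ := ball_subset_ball (by rw [hδdef]; exact min_le_right _ _)
  obtain ⟨C, J, hcount⟩ := count3 hd hp hVo hVb hδ hfr₁ (fun c hc => hfr c (hb1 hc)) hg.2.1
    (h := h) (s := s) (hh.mono fun c hc => (hst c (hb2 hc)).2) (fun c hc => (hst c (hb2 hc)).1)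
    (by
      intro k hk heq
      exact hNP k hk (heq.eventuallyEq_of_mem (ball_mem_nhds c₁ hδ)))
  have h1 : ball c₁ (δ / 32) ∩ A ∈ 𝓝[A] c₁ :=
    inter_mem (mem_nhdsWithin_of_mem_nhds (ball_mem_nhds c₁ (by positivity))) self_mem_nhdsWithin
  refine (hdim _ h1).trans_le ?_
  have hsub : ball c₁ (δ / 32) ∩ A ⊆ {c | Good d p V c ∧ Fast d p V (p * X) c} ∪
      {c₀ | ∃ᶠ j : ℕ in atTop, ∃ z ∈ Zj d p V h s c₁ (δ / 16) j,
        ‖c₀ - z‖ ≤ 1 * Real.exp (-(p * X * j))} := by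
    rintro c₀ ⟨hc₀, hc₀A⟩
    rw [hA] at hc₀A
    obtain ⟨_, _, _, hg₀, _, hnear⟩ := hc₀A
    by_cases hF : Fast d p V (p * X) c₀
    · exact Or.inl ⟨hg₀, hF⟩
    right
    unfold Fast at hF
    rw [not_frequently] at hF
    have hlim : Tendsto (fun j : ℕ => Real.exp (-(p * X * j))) atTop (𝓝 0) := by
      apply Real.tendsto_exp_neg_atTop_nhds_zero.comp
      exact Tendsto.const_mul_atTop hpX tendsto_natCast_atTop_atTop
    have hsmall := hlim.eventually (gt_mem_nhds (show 0 < δ / 32 by positivity))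
    refine (hnear.and_eventually (hF.and hsmall)).mono ?_
    rintro j ⟨⟨a, haD, hPa, ha2⟩, hnF, hsm⟩
    have hexp : Real.exp (-(X * (p * j + s))) ≤ Real.exp (-(p * X * j)) := by
      apply Real.exp_le_exp.2
      have h3 : 0 ≤ X * s := by positivity
      nlinarith
    have ha3 := ha2.trans hexp
    have hsm' : Real.exp (-(p * X * j)) < δ / 32 := hsm
    refine ⟨a, ⟨?_, ?_, hPa⟩, ?_⟩
    · rw [mem_ball, dist_eq_norm] at hc₀ ⊢
      have h2 : a - c₁ = (a - c₀) + (c₀ - c₁) := by ring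
      rw [h2]
      have := norm_add_le (a - c₀) (c₀ - c₁)
      linarith
    · intro l hl
      by_contra hcon
      apply hnF
      refine ⟨a, ?_, l, hl, hcon⟩
      rw [mem_closedBall, dist_eq_norm]
      exact ha3
    · rw [one_mul, norm_sub_rev]
      exact ha3
  refine (dimH_mono hsub).trans ?_
  rw [dimH_union]
  refine max_le ?_ ?_
  · exact dim_good lp jz qs dc seq hd hp hVo hVb hpX
  · exact dc d (p * X) 1 C J (fun j => Zj d p V h s c₁ (δ / 16) j) _ hdR hpX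
      (fun j hj => hcount j hj) fun a ha => ha

/-- a renormalizable parameter is good for one of the domains of the family, whose frontier
avoids a given finite set -/
theorem good_of_ren2 {c : ℂ} (h : Ren d c p) {F : Set ℂ} (hF : F.Finite) :
    ∃ V ∈ FamV, Bornology.IsBounded V ∧ Good d p V c ∧ ∀ z ∈ frontier V, z ∉ F := by
  obtain ⟨U, hPL, h0, horb⟩ := h
  have hg : Continuous ((fc d c)^[p]) := cont_it_y d p c
  have hfr := front_poly hg hPL
  obtain ⟨hUo, hUb, hsub, _, hdeg⟩ := hPL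
  obtain ⟨K, hK⟩ : ∃ K : Set ℂ, K = closure U ∩ (fc d c)^[p] ⁻¹' closure U := ⟨_, rfl⟩
  have hKc : IsCompact K := by
    rw [hK]
    exact (Metric.isCompact_of_isClosed_isBounded isClosed_closure hUb.closure).inter_right
      (isClosed_closure.preimage hg)
  have hKU : K ⊆ U := by
    rw [hK]
    rintro z ⟨h1, h2⟩
    by_contra hcon
    exact hfr z (by rw [hUo.frontier_eq]; exact ⟨h1, hcon⟩) h2
  obtain ⟨V, hV, hKV', hVU⟩ := approx (hKc.union ((hF.inter_of_left U).isCompact)) hUo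
    (union_subset hKU inter_subset_right)
  have hKV : K ⊆ V := subset_union_left.trans hKV'
  have hVU' : V ⊆ U := subset_closure.trans hVU
  have hPU : ∀ i, P d (p * i) c ∈ U := by
    intro i
    rcases Nat.eq_zero_or_pos i with hi | hi
    · subst hi
      simpa [P_zero] using h0
    · rw [Nat.mul_comm]
      exact horb i hi
  refine ⟨V, hV, hUb.subset hVU', ⟨?_, ?_, ?_⟩, ?_⟩
  · intro z hz hgz
    have hz1 : z ∈ closure V := frontier_subset_closure hz
    rw [(FamV_open hV).frontier_eq] at hz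
    apply hz.2
    apply hKV
    rw [hK]
    exact ⟨subset_closure (hVU hz1), subset_closure (hVU hgz)⟩
  · intro w hw
    have h1 : w ∈ (fc d c)^[p] '' U := hsub (subset_closure (hVU' hw))
    have h2 := hdeg w h1
    have h3 : {z | z ∈ V ∧ (fc d c)^[p] z = w} ⊆ {z | z ∈ U ∧ (fc d c)^[p] z = w} :=
      fun z hz => ⟨hVU' hz.1, hz.2⟩
    have h4 : {z | z ∈ V ∧ (fc d c)^[p] z = w}.encard ≤ d := (encard_le_encard h3).trans h2
    have h5 : {z | z ∈ V ∧ (fc d c)^[p] z = w}.Finite :=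
      finite_of_encard_le_coe h4
    refine ⟨h5, ?_⟩
    rw [← h5.cast_ncard_eq] at h4
    exact_mod_cast h4
  · intro i
    apply hKV
    rw [hK]
    refine ⟨subset_closure (hPU i), ?_⟩
    show (fc d c)^[p] (P d (p * i) c) ∈ closure U
    rw [iter_P, show p + p * i = p * (i + 1) by ring]
    exact subset_closure (hPU (i + 1))
  · intro z hz hzF
    have hz1 : z ∈ closure V := frontier_subset_closure hz
    rw [(FamV_open hV).frontier_eq] at hz
    exact hz.2 (hKV' (Or.inr ⟨hzF, hVU hz1⟩))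

/-- infinitely often exponentially close to a parameter that hits the target -/
def Near4 (d : ℕ) (D : Set ℂ) (h : ℂ → ℂ) (X : ℝ) (c : ℂ) : Prop :=
  ∃ᶠ n : ℕ in atTop, ∃ a ∈ D, P d n a = h a ∧ ‖a - c‖ ≤ Real.exp (-(X * n))

/-- **Renormalizable parameters close to parameters that hit a target.** -/
theorem dim_near4 (hd : 2 ≤ d) (hp : 1 ≤ p) {D : Set ℂ} (hD : IsOpen D) {h : ℂ → ℂ}
    (hh : DifferentiableOn ℂ h D) {X : ℝ} (hX : 0 < X) :
    dimH {c | c ∈ frontier (multibrotSet d) ∧ c ∈ D ∧ NP d h c ∧ Ren d c p ∧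
      Near4 d D h X c} ≤ ENNReal.ofReal (Real.log d / (p * X)) := by
  have hsub : {c | c ∈ frontier (multibrotSet d) ∧ c ∈ D ∧ NP d h c ∧ Ren d c p ∧
      Near4 d D h X c} ⊆
      ⋃ V ∈ {V : Set ℂ | V ∈ FamV ∧ Bornology.IsBounded V}, ⋃ s : ℕ,
        {c | c ∈ frontier (multibrotSet d) ∧ c ∈ D ∧ NP d h c ∧ Good d p V c ∧
          (∀ z ∈ frontier V, (fc d c)^[s] z ≠ h c) ∧ Near3 d p D h s X c} := by
    rintro c ⟨h1, h2, h3, h4, h5⟩
    obtain ⟨V, hV, hVb, hg, hF⟩ := good_of_ren2 h4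
      (F := ⋃ s ∈ Finset.range p, {v | (fc d c)^[s] v = h c})
      (Set.Finite.biUnion (Finset.finite_toSet _) fun s _ => (fiber_finite hd c (h c) s).1)
    have h6 : ∃ s < p, Near3 d p D h s X c := by
      by_contra hcon
      push Not at hcon
      have h7 : ∀ s ∈ Finset.range p, ∀ᶠ j : ℕ in atTop, ¬ ∃ a ∈ D,
          P d (p * j + s) a = h a ∧ ‖a - c‖ ≤ Real.exp (-(X * (p * j + s))) := by
        intro s hs
        exact not_frequently.1 (hcon s (Finset.mem_range.1 hs))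
      have h8 := (Finset.eventually_all _).2 h7
      have h9 : Tendsto (fun n : ℕ => n / p) atTop atTop :=
        Nat.tendsto_div_const_atTop (by omega)
      obtain ⟨n, ⟨a, ha1, ha2, ha3⟩, hn2⟩ := (h5.and_eventually (h9.eventually h8)).exists
      apply hn2 (n % p) (Finset.mem_range.2 (Nat.mod_lt n (by omega)))
      have h10 : p * (n / p) + n % p = n := Nat.div_add_mod n p
      refine ⟨a, ha1, by rw [h10]; exact ha2, ?_⟩
      have h11 : (p : ℝ) * ((n / p : ℕ) : ℝ) + ((n % p : ℕ) : ℝ) = n := by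
        exact_mod_cast h10
      rw [h11]
      exact ha3
    obtain ⟨s, hs, hn⟩ := h6
    rw [mem_iUnion₂]
    refine ⟨V, ⟨hV, hVb⟩, ?_⟩
    rw [mem_iUnion]
    refine ⟨s, h1, h2, h3, hg, ?_, hn⟩
    intro z hz hzh
    apply hF z hz
    simp only [mem_iUnion]
    exact ⟨s, Finset.mem_range.2 hs, hzh⟩
  refine (dimH_mono hsub).trans ?_
  rw [dimH_bUnion (FamV_countable.mono fun V hV => hV.1)]
  refine iSup₂_le fun V hV => ?_
  rw [dimH_iUnion]
  exact iSup_le fun s => dim_V3 hd hp (FamV_open hV.1) hV.2 hD hh hX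

theorem Near4.mono {D : Set ℂ} {h : ℂ → ℂ} {X X' : ℝ} (hXX : X' ≤ X) {c : ℂ}
    (hc : Near4 d D h X c) : Near4 d D h X' c := by
  refine Filter.Frequently.mono hc ?_
  rintro n ⟨a, h1, h2, h3⟩
  refine ⟨a, h1, h2, h3.trans ?_⟩
  apply Real.exp_le_exp.2
  have : (0:ℝ) ≤ n := Nat.cast_nonneg n
  nlinarith

end Pool.Agent.J4H70.HT
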