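import Pool.Agent.J4H70.HT.D
import Pool.Agent.J4H70.ML.I

set_option autoImplicit false

/-! # Holomorphic targets: all targets, almost every circle, local connectivity -/

namespace Pool.Agent.J4H70.HT

open Filter Topology Set Metric MeasureTheory Pool.Agent.H712R2
open Pool.Agent.Y736.RN Pool.Agent.J4H70.ML
open Pool.Agent.R240.Loc
open N62a1eb23

variable {d p : ℕ}

/-- far from the parameters that hit the target -/
def Far4 (d : ℕ) (D : Set ℂ) (h : ℂ → ℂ) (X : ℝ) (c : ℂ) : Prop :=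
  ∀ᶠ n : ℕ in atTop, ∀ a ∈ D, P d n a = h a → Real.exp (-(X * n)) < ‖a - c‖

theorem not_near4 {D : Set ℂ} {h : ℂ → ℂ} {X : ℝ} {c : ℂ} (hc : ¬ Near4 d D h X c) :
    Far4 d D h X c := by
  unfold Near4 at hc
  rw [not_frequently] at hc
  filter_upwards [hc] with n hn a ha1 ha2
  by_contra hcon
  push Not at hcon
  exact hn ⟨a, ha1, ha2, hcon⟩

/-- almost every circle, for a countable family of targets which are not postcritical -/
theorem ae_far (hd : 2 ≤ d) {ι : Type} [Countable ι] {D : ι → Set ℂ} (hD : ∀ i, IsOpen (D i))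
    {h : ι → ℂ → ℂ} (hh : ∀ i, DifferentiableOn ℂ (h i) (D i)) (p₀ : ℂ) :
    ∀ᵐ s : ℝ, ∀ c ∈ frontier (multibrotSet d), dist c p₀ = s →
      ∀ p : ℕ, 1 ≤ p → Ren d c p → ∀ X : ℝ, Real.log d / p < X → ∀ i, c ∈ D i → NP d (h i) c →
        Far4 d (D i) (h i) X c := by
  have hdR : (1 : ℝ) < d := by exact_mod_cast (by omega : 1 < d)
  have hlogd : 0 < Real.log d := Real.log_pos hdR
  have h1 : ∀ (p : ℕ) (q : ℚ) (i : ι), 1 ≤ p → Real.log d / p < (q : ℝ) →
      ∀ᵐ s : ℝ, ∀ c : ℂ, dist c p₀ = s →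
        ¬ (c ∈ frontier (multibrotSet d) ∧ c ∈ D i ∧ NP d (h i) c ∧ Ren d c p ∧
          Near4 d (D i) (h i) q c) := by
    intro p q i hp hq
    have hp0 : (0 : ℝ) < p := by exact_mod_cast hp
    have hq0 : (0 : ℝ) < q := lt_trans (by positivity) hq
    have h2 : dimH {c | c ∈ frontier (multibrotSet d) ∧ c ∈ D i ∧ NP d (h i) c ∧ Ren d c p ∧
          Near4 d (D i) (h i) q c} < 1 := by
      refine (dim_near4 hd hp (hD i) (hh i) hq0).trans_lt ?_
      rw [← ENNReal.ofReal_one, ENNReal.ofReal_lt_ofReal_iff one_pos, div_lt_one (by positivity)]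
      rwa [div_lt_iff₀ hp0, mul_comm] at hq
    have h3 := circles_null h2 p₀
    have h4 : ∀ᵐ s : ℝ, s ∉ (fun z => dist z p₀) ''
        {c | c ∈ frontier (multibrotSet d) ∧ c ∈ D i ∧ NP d (h i) c ∧ Ren d c p ∧
          Near4 d (D i) (h i) q c} :=
      measure_eq_zero_iff_ae_notMem.1 h3
    filter_upwards [h4] with s hs c hc hcon
    exact hs ⟨c, hcon, hc⟩
  have h2 : ∀ᵐ s : ℝ, ∀ (p : ℕ) (q : ℚ) (i : ι), 1 ≤ p → Real.log d / p < (q : ℝ) →
      ∀ c : ℂ, dist c p₀ = s →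
        ¬ (c ∈ frontier (multibrotSet d) ∧ c ∈ D i ∧ NP d (h i) c ∧ Ren d c p ∧
          Near4 d (D i) (h i) q c) := by
    rw [ae_all_iff]; intro p
    rw [ae_all_iff]; intro q
    rw [ae_all_iff]; intro i
    by_cases hp : 1 ≤ p
    · by_cases hq : Real.log d / p < (q : ℝ)
      · filter_upwards [h1 p q i hp hq] with s hs _ _
        exact hs
      · exact ae_of_all _ fun s _ h => absurd h hq
    · exact ae_of_all _ fun s h => absurd h hp
  filter_upwards [h2] with s hs c hc hcs p hp hr X hX i hci hnp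
  obtain ⟨q, hq1, hq2⟩ := exists_rat_btwn hX
  apply not_near4
  intro hcon
  exact hs p q i hp hq1 c hcs ⟨hc, hci, hnp, hr, hcon.mono hq2.le⟩

/-- unwinding a return to the critical orbit -/
theorem unwind (hd : 2 ≤ d) {a : ℂ} : ∀ (k n : ℕ), k < n → P d n a = P d k a →
    ∃ l ≤ k, ∃ ξ : ℂ, ξ ^ d = 1 ∧ (l = 0 ∨ ξ ≠ 1) ∧ P d (n - k + l) a = ξ * P d l a := by
  intro k
  induction k with
  | zero =>
    intro n _ h
    refine ⟨0, le_rfl, 1, one_pow d, Or.inl rfl, ?_⟩
    rw [one_mul]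
    simpa using h
  | succ k ih =>
    intro n hn h
    obtain ⟨m, rfl⟩ : ∃ m, n = m + 1 := ⟨n - 1, by omega⟩
    rw [P_succ, P_succ] at h
    have h1 : P d m a ^ d = P d k a ^ d := add_right_cancel h
    have h3 : m + 1 - (k + 1) = m - k := by omega
    by_cases h2 : P d m a = P d k a
    · obtain ⟨l, hl, ξ, hξ, h4, h5⟩ := ih m (by omega) h2
      exact ⟨l, by omega, ξ, hξ, h4, by rw [h3]; exact h5⟩
    · have h4 : P d k a ≠ 0 := by
        intro h0
        rw [h0, zero_pow (by omega)] at h1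
        exact h2 (by rw [h0]; exact eq_zero_of_pow_eq_zero h1)
      refine ⟨k, by omega, P d m a / P d k a, ?_, Or.inr ?_, ?_⟩
      · rw [div_pow, h1, div_self (pow_ne_zero d h4)]
      · intro h5
        rw [div_eq_one_iff_eq h4] at h5
        exact h2 h5
      · rw [h3, show m - k + k = m by omega, div_mul_cancel₀ _ h4]

/-- the auxiliary targets are not postcritical -/
theorem NP_aux (hd : 2 ≤ d) {l : ℕ} {ξ : ℂ} (hξ : ξ ^ d = 1) (hl : l = 0 ∨ ξ ≠ 1) (c : ℂ) :
    NP d (fun x => ξ * P d l x) c := by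
  intro k hk hcon
  have hPd : ∀ k, Differentiable ℂ (P d k) := fun k => diff_it_c d k 0
  have han : AnalyticOnNhd ℂ (P d k) univ := (hPd k).differentiableOn.analyticOnNhd isOpen_univ
  have han2 : AnalyticOnNhd ℂ (fun x => ξ * P d l x) univ :=
    ((hPd l).const_mul ξ).differentiableOn.analyticOnNhd isOpen_univ
  have h1 := congrFun (han.eq_of_eventuallyEq han2 hcon) 1
  have h1' : P d k 1 = ξ * P d l 1 := h1
  rcases Nat.eq_zero_or_pos l with h0 | h0
  · subst h0
    rw [P_zero, mul_zero, ← P_zero (d := d) (c := 1)] at h1'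
    exact P_one_lt hd hk h1'
  · have hξ1 : ξ ≠ 1 := by
      rcases hl with h | h
      · omega
      · exact h
    have hnorm : ‖ξ‖ = 1 := by
      have := congrArg norm hξ
      rw [norm_pow, norm_one] at this
      exact (pow_eq_one_iff_of_nonneg (norm_nonneg _) (by omega)).1 this
    obtain ⟨u, hu, hPu, _⟩ := P_one_real hd k
    obtain ⟨v, hv, hPv, _⟩ := P_one_real hd l
    have hu0 : 0 < u := lt_of_lt_of_le (by exact_mod_cast hk) hu
    have hv0 : 0 < v := lt_of_lt_of_le (by exact_mod_cast h0) hv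
    have h2 := congrArg norm h1'
    rw [norm_mul, hnorm, one_mul, hPu, hPv, Complex.norm_real, Complex.norm_real,
      Real.norm_eq_abs, Real.norm_eq_abs, abs_of_pos hu0, abs_of_pos hv0] at h2
    rw [hPu, hPv, h2] at h1'
    have hv0' : (v : ℂ) ≠ 0 := by exact_mod_cast hv0.ne'
    apply hξ1
    have h3 : (ξ - 1) * (v : ℂ) = 0 := by
      rw [sub_mul, one_mul, ← h1', sub_self]
    rcases mul_eq_zero.1 h3 with h | h
    · exact sub_eq_zero.1 h
    · exact absurd h hv0'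

/-- the postcritical targets -/
theorem far_post (hd : 2 ≤ d) {D : Set ℂ} {h : ℂ → ℂ} {X : ℝ} (hX : 0 < X) {c : ℂ} {k : ℕ}
    (heq : P d k =ᶠ[𝓝 c] h)
    (haux : ∀ (l : ℕ) (ξ : ℂ), ξ ^ d = 1 → (l = 0 ∨ ξ ≠ 1) →
      Far4 d univ (fun x => ξ * P d l x) X c) : Far4 d D h X c := by
  have hroots : {ξ : ℂ | ξ ^ d = 1}.Finite := by
    have h1 : {ξ : ℂ | ξ ^ d = 1} ⊆ ((Polynomial.nthRoots d (1:ℂ)).toFinset : Set ℂ) := by
      intro ξ hξ
      rw [Finset.mem_coe, Multiset.mem_toFinset, Polynomial.mem_nthRoots (by omega)]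
      exact hξ
    exact (Finset.finite_toSet _).subset h1
  have h1 : ∀ l ∈ Finset.range (k + 1), ∀ ξ ∈ hroots.toFinset, ∀ᶠ n : ℕ in atTop,
      (l = 0 ∨ ξ ≠ 1) → ∀ a, P d (n - k + l) a = ξ * P d l a →
        Real.exp (-(X * (n - k + l : ℕ))) < ‖a - c‖ := by
    intro l _ ξ hξ
    rw [Set.Finite.mem_toFinset] at hξ
    by_cases hcase : l = 0 ∨ ξ ≠ 1
    · have h2 : Tendsto (fun n : ℕ => n - k + l) atTop atTop :=
        tendsto_atTop_mono (fun n => Nat.le_add_right _ _) (tendsto_sub_atTop_nat k)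
      filter_upwards [h2.eventually (haux l ξ hξ hcase)] with n hn _ a ha
      exact hn a trivial ha
    · exact Eventually.of_forall fun n h => absurd h hcase
  have h2 : ∀ᶠ n : ℕ in atTop, ∀ l ∈ Finset.range (k + 1), ∀ ξ ∈ hroots.toFinset,
      (l = 0 ∨ ξ ≠ 1) → ∀ a, P d (n - k + l) a = ξ * P d l a →
        Real.exp (-(X * (n - k + l : ℕ))) < ‖a - c‖ :=
    (Finset.eventually_all _).2 fun l hl => (Finset.eventually_all _).2 fun ξ hξ => h1 l hl ξ hξ
  obtain ⟨ε, hε, hball⟩ := Metric.eventually_nhds_iff_ball.1 heq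
  have hlim : Tendsto (fun n : ℕ => Real.exp (-(X * n))) atTop (𝓝 0) := by
    apply Real.tendsto_exp_neg_atTop_nhds_zero.comp
    exact Tendsto.const_mul_atTop hX tendsto_natCast_atTop_atTop
  filter_upwards [h2, hlim.eventually (gt_mem_nhds hε), eventually_gt_atTop k] with n hn1 hn2 hn3
  intro a _ haP
  by_contra hcon
  push Not at hcon
  have hn2' : Real.exp (-(X * n)) < ε := hn2
  have ha : a ∈ ball c ε := by
    rw [mem_ball, dist_eq_norm]
    linarith
  have h3 : P d n a = P d k a := by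
    rw [haP]
    exact (hball a ha).symm
  obtain ⟨l, hl, ξ, hξ, hcase, h4⟩ := unwind hd k n hn3 h3
  have h5 := hn1 l (Finset.mem_range.2 (by omega)) ξ (by rwa [Set.Finite.mem_toFinset]) hcase a h4
  have h6 : Real.exp (-(X * n)) ≤ Real.exp (-(X * (n - k + l : ℕ))) := by
    apply Real.exp_le_exp.2
    have h7 : ((n - k + l : ℕ) : ℝ) ≤ n := by
      have : n - k + l ≤ n := by omega
      exact_mod_cast this
    nlinarith
  linarith

/-- far from the parameters that hit one of the targets, at all periods of renormalization -/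
def SepT (d : ℕ) (D : ℕ → Set ℂ) (h : ℕ → ℂ → ℂ) (c : ℂ) : Prop :=
  ∀ p : ℕ, 1 ≤ p → Ren d c p → ∀ X : ℝ, Real.log d / p < X → ∀ i, c ∈ D i →
    Far4 d (D i) (h i) X c

/-- almost every circle misses the other parameters -/
theorem ae_sepT (hd : 2 ≤ d) {D : ℕ → Set ℂ} (hD : ∀ i, IsOpen (D i))
    {h : ℕ → ℂ → ℂ} (hh : ∀ i, DifferentiableOn ℂ (h i) (D i)) (p₀ : ℂ) :
    ∀ᵐ s : ℝ, ∀ c ∈ frontier (multibrotSet d), dist c p₀ = s → SepT d D h c := by
  have hdR : (1 : ℝ) < d := by exact_mod_cast (by omega : 1 < d)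
  have hlogd : 0 < Real.log d := Real.log_pos hdR
  have hroots : {ξ : ℂ | ξ ^ d = 1}.Finite := by
    have h1 : {ξ : ℂ | ξ ^ d = 1} ⊆ ((Polynomial.nthRoots d (1:ℂ)).toFinset : Set ℂ) := by
      intro ξ hξ
      rw [Finset.mem_coe, Multiset.mem_toFinset, Polynomial.mem_nthRoots (by omega)]
      exact hξ
    exact (Finset.finite_toSet _).subset h1
  have : Countable {ξ : ℂ // ξ ^ d = 1} := hroots.countable.to_subtype
  have hPd : ∀ k, Differentiable ℂ (P d k) := fun k => diff_it_c d k 0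
  have h2 := ae_far hd (ι := ℕ × {ξ : ℂ // ξ ^ d = 1}) (D := fun _ => univ)
    (h := fun i x => i.2.1 * P d i.1 x) (fun _ => isOpen_univ)
    (fun i => ((hPd i.1).const_mul i.2.1).differentiableOn) p₀
  filter_upwards [ae_far hd hD hh p₀, h2] with s hs1 hs2 c hc hcs p hp hr X hX i hci
  by_cases hnp : NP d (h i) c
  · exact hs1 c hc hcs p hp hr X hX i hci hnp
  · unfold NP at hnp
    push Not at hnp
    obtain ⟨k, _, hk⟩ := hnp
    have hp0 : (0 : ℝ) < p := by exact_mod_cast hp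
    have hX0 : 0 < X := lt_trans (by positivity) hX
    refine far_post hd hX0 hk ?_
    intro l ξ hξ hcase
    exact hs2 c hc hcs p hp hr X hX (l, ⟨ξ, hξ⟩) trivial (NP_aux hd hξ hcase c)

/-- **Spreading to separated parameters.** -/
theorem spread_sepT (hd : 2 ≤ d) {D : ℕ → Set ℂ} (hD : ∀ i, IsOpen (D i))
    {h : ℕ → ℂ → ℂ} (hh : ∀ i, DifferentiableOn ℂ (h i) (D i)) {p₀ : ℂ}
    (hp₀ : ¬ CIK (multibrotSet d) p₀) :
    ∃ ε : ℝ, 0 < ε ∧ ∀ᵐ s : ℝ, 0 < s → s < ε →
      ∃ c ∈ frontier (multibrotSet d), dist c p₀ = s ∧ SepT d D h c ∧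
        ¬ CIK (multibrotSet d) c := by
  obtain ⟨ε, hε, hs⟩ := spread (isCompact_multibrot hd) (isConnected_multibrot hd).isPreconnected
    hp₀
  refine ⟨ε, hε, ?_⟩
  filter_upwards [ae_sepT hd hD hh p₀] with s h1 hs0 hsε
  obtain ⟨z, hz, hzs, hzc⟩ := hs s hs0 hsε
  have hzf : z ∈ frontier (multibrotSet d) :=
    ⟨subset_closure hz, fun hi => hzc (cik_interior hi)⟩
  exact ⟨z, hzf, hzs, h1 z hzf hzs, hzc⟩

/-- local connectivity is decided at the separated parameters -/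
theorem lcs_sepT (hd : 2 ≤ d) {D : ℕ → Set ℂ} (hD : ∀ i, IsOpen (D i))
    {h : ℕ → ℂ → ℂ} (hh : ∀ i, DifferentiableOn ℂ (h i) (D i)) :
    LocallyConnectedSpace (multibrotSet d) ↔
      ∀ c ∈ frontier (multibrotSet d), SepT d D h c → CIK (multibrotSet d) c := by
  constructor
  · intro h c hc _
    exact lcs_iff.1 h c ((isCompact_multibrot hd).isClosed.frontier_subset hc)
  · intro hs
    refine lcs_iff.2 fun p₀ _ => ?_
    by_contra hcon
    obtain ⟨ε, hε, h1⟩ := spread_sepT hd hD hh hcon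
    have h3 : ∃ s : ℝ, s ∈ Ioo 0 ε ∧ (0 < s → s < ε →
        ∃ c ∈ frontier (multibrotSet d), dist c p₀ = s ∧ SepT d D h c ∧
          ¬ CIK (multibrotSet d) c) := by
      by_contra h4
      push Not at h4
      have h5 : volume (Ioo 0 ε) = 0 := by
        apply measure_mono_null _ h1
        intro s hs hcon
        obtain ⟨h6, h7, h8⟩ := h4 s hs
        obtain ⟨c, hc1, hc2, hc3, hc4⟩ := hcon h6 h7
        exact hc4 (h8 c hc1 hc2 hc3)
      rw [Real.volume_Ioo, ENNReal.ofReal_eq_zero] at h5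
      linarith
    obtain ⟨s, hs', h4⟩ := h3
    obtain ⟨c, hc1, _, hc3, hc4⟩ := h4 hs'.1 hs'.2
    exact hc4 (hs c hc1 hc3)

end Pool.Agent.J4H70.HT
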